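import Pool.Agent.W619.Y.Stm3
import Pool.Agent.W619.TW.Canon
import Pool.Agent.W619.TW.Upper

/-! Sections of `m K + A` restricted to the generic curve `F` over `M` (part FIB). -/

set_option autoImplicit false
set_option linter.overlappingInstances false
set_option linter.unusedSectionVars false

universe u v

open Polynomial FF IntermediateField Pool.Agent.W619.PQ Pool.Agent.W619.PL Pool.Agent.W619.TW
  Pool.Agent.W603.LV

namespace Pool.Agent.W479.PG

section

variable {k L : Type*} [Field k] [Field L] [Algebra k L] [CharZero k] [IsAlgClosed k]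
  {M F : IntermediateField k L}

/-- The pair `M`, `F` is a curve over `M`. -/
theorem cur_of [hF : IsFF k F] {d : ℕ} (hM : Algebra.trdeg k M = d)
    (hL : Algebra.trdeg k L = (d + 1 : ℕ)) (hsup : M ⊔ F = ⊤) : Cur M F := by
  refine ⟨hF, fun x hx halg => ?_, hsup⟩
  let A : IntermediateField k L := (algebraicClosure M L).restrictScalars k
  have hMA : M ≤ A := by
    intro z hz
    rw [mem_restrictScalars]
    exact (algebraicClosure M L).algebraMap_mem ⟨z, hz⟩
  have hxA : (x : L) ∈ A := by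
    rw [mem_restrictScalars, mem_algebraicClosure_iff]
    exact halg
  have hFA : F ≤ A := by
    intro z hz
    have h1 : IsAlgebraic A z := alg_of_mem F hx A hxA ⟨z, hz⟩
    have h2 : IsAlgebraic (algebraicClosure M L) z := h1
    rw [mem_restrictScalars, mem_algebraicClosure_iff]
    exact h2.restrictScalars M
  have halgL : Algebra.IsAlgebraic M L := by
    refine ⟨fun z => ?_⟩
    have h1 : (⊤ : IntermediateField k L) ≤ A := by
      rw [← hsup, sup_le_iff]
      exact ⟨hMA, hFA⟩
    have h2 := h1 (by trivial : z ∈ (⊤ : IntermediateField k L))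
    rwa [mem_restrictScalars, mem_algebraicClosure_iff] at h2
  have h1 := trdeg_add_eq k M (A := L)
  have h2 : Algebra.trdeg M L = 0 := trdeg_eq_zero
  rw [h2, add_zero, hM, hL] at h1
  have h3 : d = d + 1 := by exact_mod_cast h1
  omega

/-- A common denominator of a finite set. -/
theorem exists_den1 (h : Cur M F) (S : Finset L) :
    ∃ b ∈ RR M F, b ≠ 0 ∧ ∀ s ∈ S, b * s ∈ RR M F := by
  classical
  induction S using Finset.induction_on with
  | empty => exact ⟨1, one_mem _, one_ne_zero, by simp⟩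
  | insert a S _ ih =>
    obtain ⟨b, hb, hb0, hbS⟩ := ih
    obtain ⟨c, hc, e, he, he0, hce⟩ := h.frac a
    refine ⟨b * e, mul_mem hb he, mul_ne_zero hb0 he0, fun s hs => ?_⟩
    rcases Finset.mem_insert.1 hs with rfl | hs
    · have h1 : b * e * s = b * c := by rw [hce]; field_simp
      rw [h1]; exact mul_mem hb hc
    · rw [mul_comm b e, mul_assoc]; exact mul_mem he (hbS s hs)

/-- The canonical divisor given by a vector field. -/
theorem exists_C1 [IsFF k F] {δ : Derivation k F F} (hδ : δ ≠ 0) :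
    ∃ C : Place k F →₀ ℤ, (∀ q : Place k F, C q = - vo q δ) ∧ ddeg C = canDeg k F := by
  classical
  set T : Finset (Place k F) := (vo_finite hδ).toFinset with hT
  have hsupp : ∀ q, (- vo q δ) ≠ 0 → q ∈ T := by
    intro q hq
    exact (vo_finite hδ).mem_toFinset.2 (by simpa using hq)
  let C : Place k F →₀ ℤ := Finsupp.ofSupportFinite (fun q => - vo q δ)
    (T.finite_toSet.subset fun q hq => hsupp q hq)
  have hCq : ∀ q, C q = - vo q δ := fun q => rfl
  refine ⟨C, hCq, ?_⟩
  unfold ddeg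
  rw [Finsupp.sum_of_support_subset (s := T) _ (fun q hq => hsupp q (by
      rw [← hCq]; exact Finsupp.mem_support_iff.1 hq)) _ (by intros; simp)]
  have h1 : ∀ q ∈ T, C q * (q.deg : ℤ) = - vo q δ := by
    intro q _
    rw [deg_one, hCq]; simp
  rw [Finset.sum_congr rfl h1, Finset.sum_neg_distrib,
      canDeg_finset hδ T fun q hq => (vo_finite hδ).mem_toFinset.2 hq, neg_neg]

/-- The places of `L` over `M` are divisorial. -/
theorem divisorial1 {d : ℕ} {y : Fin d → M} (hy : AlgebraicIndependent k y) (w : Place M L) :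
    IsDivisorial (rk w) (d + 1) := by
  refine ⟨fun j => (y j : L), fun p hp => ?_⟩
  have h1 : MvPolynomial.aeval (fun j => (y j : L)) p = ((MvPolynomial.aeval y p : M) : L) :=
    MvPolynomial.aeval_algebraMap_apply L y p
  change MvPolynomial.aeval (fun j : Fin d => (y j : L)) p ≠ 0 ∧
    w.ord (MvPolynomial.aeval (fun j : Fin d => (y j : L)) p) = 0
  rw [h1]
  refine ⟨fun h => hp ((map_eq_zero_iff _ hy).1 (Subtype.ext h)), ord_M w (Subtype.property _)⟩

section

variable [IsFF k F] {d : ℕ} {y : Fin d → M} {E : Fin (d + 1) → Derivation k L L}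
  {δ : Derivation k F F} {dM : Fin d → Derivation k M M}

/-- The vector fields preserve the valuation ring: directions of `M`. -/
theorem pres_succ (h : Cur M F) (hEM : ∀ l (z : M), E (Fin.succ l) (z : L) = (dM l z : L))
    (hEF : ∀ l : Fin d, ∀ β : F, E l.succ (β : L) = 0) (w : Place M L) (l : Fin d) :
    Pres (rk w) (E l.succ) := by
  refine h.pres w _ (fun z hz => ?_) (fun β _ => ?_)
  · have := hEM l ⟨z, hz⟩
    change E l.succ z = _ at this
    rw [this]
    exact Subtype.property _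
  · rw [hEF]
    exact w.reg_zero

theorem pres_zero_triv (h : Cur M F) (hE0 : ∀ μ : M, E 0 (μ : L) = 0)
    (hEδ : ∀ β : F, E 0 (β : L) = (δ β : L)) (w : Place M L)
    (hw : ∀ β : F, w.ord (β : L) = 0) : Pres (rk w) (E 0) := by
  refine h.pres w _ (fun z hz => ?_) (fun β _ => ?_)
  · have := hE0 ⟨z, hz⟩
    change E 0 z = _ at this
    rw [this]
    exact zero_mem _
  · rw [hEδ]
    exact Or.inr (hw _).ge

theorem pres_zero_over (h : Cur M F) (hE0 : ∀ μ : M, E 0 (μ : L) = 0)
    (hEδ : ∀ β : F, E 0 (β : L) = (δ β : L)) (hδ : δ ≠ 0) (w : Place M L) (q : Place k F)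
    (hq : ∀ β : F, w.ord (β : L) = q.ord β) {t : F} (ht : q.ord t = 1) :
    Pres (rk w) (((δ t : F) : L)⁻¹ • E 0) := by
  have h0 := der_pi_ne_zero hδ q ht
  have h0' : ((δ t : F) : L) ≠ 0 := fun h => h0 (Subtype.ext h)
  refine h.pres w _ (fun z hz => ?_) (fun β hβ => ?_)
  · have := hE0 ⟨z, hz⟩
    change E 0 z = _ at this
    rw [Derivation.coe_smul, Pi.smul_apply, this, smul_zero]
    exact zero_mem _
  · have h1 : Ge q 0 β := by
      rcases hβ with h | h
      · left; exact Subtype.ext h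
      · right; rw [← hq]; exact h
    obtain ⟨g, hg, hDg⟩ := der_mul q ht hδ h1
    have h2 : (((δ t : F) : L)⁻¹ • E 0) (β : L) = (g : L) := by
      rw [Derivation.coe_smul, Pi.smul_apply, hEδ, hDg, smul_eq_mul]
      push_cast
      field_simp
    rw [h2]
    rcases hg with h | h
    · left; rw [h]; rfl
    · right; rw [hq]; exact h

/-- The local bound. -/
theorem local1 (h : Cur M F) (hy : AlgebraicIndependent k y)
    (hEM : ∀ l (z : M), E (Fin.succ l) (z : L) = (dM l z : L))
    (hEF : ∀ l : Fin d, ∀ β : F, E l.succ (β : L) = 0) (hE0 : ∀ μ : M, E 0 (μ : L) = 0)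
    (hEδ : ∀ β : F, E 0 (β : L) = (δ β : L)) (hδ : δ ≠ 0) {S : Finset L} {m : ℕ}
    {ω : (Fin (d + 1) → Derivation k L L) → L} (hω : IsSec k L (d + 1) (fun _ => False) S m 1 ω)
    (w : Place M L) (c : ℤ)
    (hc : ((∀ β : F, w.ord (β : L) = 0) ∧ c = 0) ∨
      ∃ q : Place k F, (∀ β : F, w.ord (β : L) = q.ord β) ∧ c = vo q δ) :
    ω E = 0 ∨ ∃ s ∈ S, s ≠ 0 ∧ m * c + w.ord s ≤ w.ord (ω E) := by
  classical
  have hdiv := divisorial1 hy w
  rcases hc with ⟨htriv, rfl⟩ | ⟨q, hq, rfl⟩
  · have hall : ∀ l, Pres (rk w) (E l) := by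
      intro l
      refine Fin.cases ?_ (fun l => ?_) l
      · exact pres_zero_triv h hE0 hEδ w htriv
      · exact pres_succ h hEM hEF w l
    rcases hω.2.1 (rk w) hdiv (fun h => h) E hall with h1 | ⟨s, hs, hs0, h1⟩
    · exact Or.inl h1
    · refine Or.inr ⟨s, hs, hs0, ?_⟩
      change ((1 : ℕ) : ℤ) * w.ord s ≤ w.ord (ω E) at h1
      rw [Nat.cast_one, one_mul] at h1
      rw [mul_zero, zero_add]; exact h1
  · obtain ⟨t, ht0, ht⟩ := q.surj
    have hDt := der_pi_ne_zero hδ q ht
    have hDt' : ((δ t : F) : L) ≠ 0 := fun h => hDt (Subtype.ext h)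
    have hvo : w.ord ((δ t : F) : L) = vo q δ := by
      rw [hq]; exact vo_eq q ht hδ
    have hall : ∀ l, Pres (rk w)
        ((fun l => if l = 0 then ((δ t : F) : L)⁻¹ • E l else E l) l) := by
      intro l
      refine Fin.cases ?_ (fun l => ?_) l
      · simp only [if_true]
        exact pres_zero_over h hE0 hEδ hδ w q hq ht
      · simp only [if_neg (Fin.succ_ne_zero l)]
        exact pres_succ h hEM hEF w l
    have h1 := hω.2.1 (rk w) hdiv (fun h => h) _ hall
    rw [pluri_scaled hω.1 E 0 (((δ t : F) : L)⁻¹)] at h1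
    by_cases h0 : ω E = 0
    · exact Or.inl h0
    right
    rcases h1 with h1 | ⟨s, hs, hs0, h1⟩
    · exact absurd h1 (mul_ne_zero (pow_ne_zero _ (inv_ne_zero hDt')) h0)
    refine ⟨s, hs, hs0, ?_⟩
    change ((1 : ℕ) : ℤ) * w.ord s ≤ w.ord (((δ t : F) : L)⁻¹ ^ m * ω E) at h1
    rw [Nat.cast_one, one_mul, w.ord_mul (pow_ne_zero _ (inv_ne_zero hDt')) h0, w.ord_pow,
      w.ord_inv, hvo] at h1
    linarith

end

end

theorem main : Pool.Agent.W619.Y.S_FIB.{u, v} := by
  intro k L _ _ _ _ _ M F _ d hM hL hsup y hy t ht E hE0 hEt hEF hEy S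
  classical
  have hcur : Cur M F := cur_of hM hL hsup
  -- the derivation of `F`
  obtain ⟨δ, hδ, hδt⟩ := exists_ddx ht
  have hEδ : ∀ β : F, E 0 (β : L) = (δ β : L) := by
    intro β
    obtain ⟨r, hr1, hr2⟩ := ratio' (K := L) ht β
    have h1 := hr1 δ
    rw [hδt, mul_one] at h1
    have h2 := hr2 (E 0)
    change E 0 (β : L) = (r : L) * E 0 (t : L) at h2
    rw [hEt, mul_one] at h2
    rw [h2, h1]
  -- the derivations of `M`
  choose dM hdM using fun l => exists_dual y hy l
  have hEM : ∀ l (z : M), E (Fin.succ l) (z : L) = (dM l z : L) := by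
    intro l z
    refine der_comp (dM l) (E l.succ) y hy (fun j => ?_) z
    change E l.succ (y j : L) = ((dM l (y j) : M) : L)
    rw [hEy, hdM]
    by_cases h : j = l
    · subst h; simp
    · rw [if_neg h, if_neg (fun h' => h h'.symm)]; simp
  obtain ⟨b0, -, hb0, hbS⟩ := exists_den1 hcur S
  obtain ⟨C, hC, hCdeg⟩ := exists_C1 hδ
  have hA : ∀ s : L, ∃ A : Place k F →₀ ℤ, 0 ≤ A ∧ (s ∈ S → ∀ (w : Place M L)
      (q : Place k F), (∀ β : F, w.ord (β : L) = q.ord β) → Ge w (-A q) (b0 * s)) := by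
    intro s
    by_cases hs : s ∈ S
    · obtain ⟨A, hA, h⟩ := (bound_RR (hbS s hs)).2
      exact ⟨A, hA, fun _ => h⟩
    · exact ⟨0, le_rfl, fun h => absurd h hs⟩
  choose A hA0 hA using hA
  refine ⟨b0, (ddeg (∑ s ∈ S, A s) + 1).toNat, hb0, fun m => ?_⟩
  set D : Place k F →₀ ℤ := m • C + ∑ s ∈ S, A s with hD
  refine ⟨LL D, inferInstance, ?_, fun ω hω => ?_⟩
  · have h1 := finrank_LL_le D
    have h2 : ddeg D = m * canDeg k F + ddeg (∑ s ∈ S, A s) := by
      rw [hD, ddeg_add, ddeg_nsmul, hCdeg]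
    rw [h2] at h1
    generalize (m : ℤ) * canDeg k F = X at h1 ⊢
    omega
  · have hloc : ∀ (w : Place M L) (c : ℤ) (N : ℤ),
        (((∀ β : F, w.ord (β : L) = 0) ∧ c = 0) ∨
        ∃ q : Place k F, (∀ β : F, w.ord (β : L) = q.ord β) ∧ c = vo q δ) →
        (∀ s ∈ S, s ≠ 0 → N ≤ m * c + w.ord (b0 * s)) → Ge w N (b0 * ω E) := by
      intro w c N hc hN
      rcases local1 hcur hy.1 hEM hEF hE0 hEδ hδ hω w c hc with h | ⟨s, hs, hs0, h⟩
      · left; rw [h, mul_zero]
      · by_cases h0 : ω E = 0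
        · left; rw [h0, mul_zero]
        right
        have h1 := hN s hs hs0
        rw [w.ord_mul hb0 hs0] at h1
        rw [w.ord_mul hb0 h0]
        linarith
    obtain ⟨s, β, hs, hβ⟩ := hcur.mem_span D (b0 * ω E)
      (fun w hw => hloc w 0 0 (Or.inl ⟨hw, rfl⟩) (by
        intro s hs hs0
        have h1 := (bound_RR (hbS s hs)).1 w hw
        have h2 := h1.resolve_left (mul_ne_zero hb0 hs0)
        linarith))
      (fun w q hw => hloc w (vo q δ) _ (Or.inr ⟨q, hw, rfl⟩) (by
        intro s hs hs0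
        have h1 := hA s hs w q hw
        have h2 := h1.resolve_left (mul_ne_zero hb0 hs0)
        have h3 := Finset.single_le_sum (f := fun s => A s q) (fun s _ => hA0 s q) hs
        have hDq : D q = m * C q + ∑ s ∈ S, A s q := by
          rw [hD, Finsupp.add_apply, Finsupp.smul_apply, Finsupp.finsetSum_apply, nsmul_eq_mul]
        rw [hDq, hC]
        have h4 : -(∑ s ∈ S, A s q) ≤ w.ord (b0 * s) := by linarith
        linarith))
    rw [hs]
    refine Submodule.sum_mem _ fun l hl => ?_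
    have h1 : ((Module.Basis.ofVectorSpace k M l : M) : L) * (β l : L) =
        (Module.Basis.ofVectorSpace k M l : M) • (β l : L) := by
      rw [Algebra.smul_def]; rfl
    rw [h1]
    exact Submodule.smul_mem _ _ (Submodule.subset_span ⟨β l, hβ l hl, rfl⟩)

end Pool.Agent.W479.PG
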